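import Mathlib
import Pool.Agent.H482.AP.Stm
import Pool.Agent.H482.WT.Stm

/-!
Project DS (helper482): dense subsets of sets sifted by `k` classes.  Statements of the tasks.
-/

set_option autoImplicit false

namespace Pool.Agent.H482.DS

open Finset

open Pool.Agent.H482.AP (AS red)

/-- the weight of the sieve with `k` classes -/
noncomputable def gk (k m : ℕ) : ℝ := ∏ p ∈ m.primeFactors, (k : ℝ) / ((p : ℝ) - k)

/-- task MONK: Montgomery's inequality for one prime and `k` classes -/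
def S_MONK : Prop := ∀ (k p N : ℕ) (Ω : Finset ℕ) (b : ℕ → ℂ), p.Prime → k < p → Ω ⊆ range p →
  Ω.card = k → (∀ n ∈ Icc 1 N, n % p ∈ Ω → b n = 0) →
  (k : ℝ) / ((p : ℝ) - k) * ‖∑ n ∈ Icc 1 N, b n‖ ^ 2 ≤ AS N b p

open Classical in
/-- task GSUK: lower bound for the sum of the weights -/
def S_GSUK : Prop := ∀ k q s R : ℕ, 1 ≤ k → 1 ≤ q → (∀ p : ℕ, p.Prime → p ≤ k → p ∣ q) → 1 ≤ s →
  s ^ k ≤ R → ((Nat.totient q : ℝ) / (q : ℝ) * Real.log s) ^ k ≤
    ∑ m ∈ (Icc 1 R).filter (fun m => Squarefree m ∧ Nat.Coprime q m), gk k m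

end Pool.Agent.H482.DS
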