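import Mathlib
import Pool.Agent.H482.DS.Lsk

/-! Dense subsets of sifted sets are equidistributed modulo almost all primes. -/

set_option autoImplicit false

namespace Pool.Agent.H482.DS

open Finset Filter

open Pool.Agent.H482.AP (AS class_count ind1)

/-- numerical facts -/
theorem num_D (k : ℕ) (hk : 1 ≤ k) (ρ : ℝ) (hρ : 0 < ρ) : ∃ X : ℕ, 3 ≤ X ∧ ∀ x : ℕ, X ≤ x →
    1 ≤ Real.log x ∧ 1 ≤ ⌊(x : ℝ) ^ (ρ / k)⌋₊ ∧
    ρ / (2 * k) * Real.log x ≤ Real.log (⌊(x : ℝ) ^ (ρ / k)⌋₊ : ℕ) ∧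
    ⌊(x : ℝ) ^ (ρ / k)⌋₊ ^ k ≤ ⌊(x : ℝ) ^ ρ⌋₊ := by
  have hk0 : (0 : ℝ) < k := by exact_mod_cast (by omega : 0 < k)
  have h2 : ∀ᶠ x : ℕ in atTop, 1 ≤ Real.log (x : ℝ) :=
    (Real.tendsto_log_atTop.comp tendsto_natCast_atTop_atTop).eventually_ge_atTop _
  have h3 : ∀ᶠ x : ℕ in atTop, (2 : ℝ) ≤ (x : ℝ) ^ (ρ / (2 * k)) :=
    ((tendsto_rpow_atTop (by positivity : 0 < ρ / (2 * k))).comp
      tendsto_natCast_atTop_atTop).eventually_ge_atTop _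
  obtain ⟨X₂, hX₂⟩ := eventually_atTop.1 (h2.and h3)
  refine ⟨max X₂ 3, le_max_right _ _, fun x hx => ?_⟩
  obtain ⟨a2, a3⟩ := hX₂ x ((le_max_left _ _).trans hx)
  have hx3 : 3 ≤ x := (le_max_right _ _).trans hx
  have hx0 : (0 : ℝ) < x := by exact_mod_cast (by omega : 0 < x)
  set s := ⌊(x : ℝ) ^ (ρ / k)⌋₊ with hs
  have h4 : (x : ℝ) ^ (ρ / (2 * k)) ≤ s := by
    have h5 := Nat.lt_floor_add_one ((x : ℝ) ^ (ρ / k))
    rw [← hs] at h5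
    have h6 : (x : ℝ) ^ (ρ / k) = (x : ℝ) ^ (ρ / (2 * k)) * (x : ℝ) ^ (ρ / (2 * k)) := by
      rw [← Real.rpow_add hx0]
      congr 1
      field_simp
      ring
    nlinarith
  refine ⟨a2, ?_, ?_, ?_⟩
  · have h5 : (1 : ℝ) ≤ s := by linarith
    exact_mod_cast h5
  · have h5 := Real.log_le_log (by positivity) h4
    rwa [Real.log_rpow hx0] at h5
  · apply Nat.le_floor
    push_cast
    have h5 : (s : ℝ) ≤ (x : ℝ) ^ (ρ / k) := Nat.floor_le (by positivity)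
    calc (s : ℝ) ^ k ≤ ((x : ℝ) ^ (ρ / k)) ^ k := pow_le_pow_left₀ (Nat.cast_nonneg _) h5 k
      _ = (x : ℝ) ^ ρ := by
          rw [← Real.rpow_natCast, ← Real.rpow_mul hx0.le]
          congr 1
          field_simp

theorem alg_Dk (k : ℕ) (a L M ε t x η : ℝ) (ha : 0 < a) (hL : 0 < L) (ht : 0 < t) (hx : 0 < x)
    (hη : 0 < η) (hε : 0 < ε) (hM : 0 ≤ M) (hct : η * (x / L ^ k) ≤ t)
    (h : (a * L) ^ k * (M * (ε * t) ^ 2) ≤ 12 * x * t) : M * (a ^ k * ε ^ 2 * η) ≤ 12 := by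
  have h1 : η * x ≤ t * L ^ k := by
    rw [← mul_div_assoc, div_le_iff₀ (by positivity)] at hct
    exact hct
  have h2 : M * (a ^ k * ε ^ 2 * η) * (x * t) ≤ 12 * (x * t) := by
    calc M * (a ^ k * ε ^ 2 * η) * (x * t) = M * a ^ k * ε ^ 2 * t * (η * x) := by ring
      _ ≤ M * a ^ k * ε ^ 2 * t * (t * L ^ k) := mul_le_mul_of_nonneg_left h1 (by positivity)
      _ = (a * L) ^ k * (M * (ε * t) ^ 2) := by rw [mul_pow]; ring
      _ ≤ 12 * x * t := h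
      _ = _ := by ring
  exact le_of_mul_le_mul_right h2 (by positivity)

open Classical in
/-- the primes modulo which `A` is not equidistributed -/
noncomputable def Ex (ε : ℝ) (A : Finset ℕ) (Q : ℕ) : Finset ℕ :=
  (Icc 1 Q).filter (fun q => q.Prime ∧ ∃ C ⊆ range q,
    ε * (A.card : ℝ) < |((A.filter (fun n => n % q ∈ C)).card : ℝ) - (C.card : ℝ) / q * (A.card : ℝ)|)

theorem dense (hM : S_MONK) (hG : S_GSUK) (k : ℕ) (hk : 1 ≤ k) (P₀ : ℕ) (θ η ε δ : ℝ) (hθ : 0 < θ)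
    (hη : 0 < η) (hε : 0 < ε) (hδ : 0 < δ) : ∃ M : ℕ, ∀ x : ℕ, 2 ≤ x → ∀ (Ω : ℕ → Finset ℕ)
    (A : Finset ℕ), A ⊆ Icc 1 x → (∀ p : ℕ, p.Prime → P₀ < p → (p : ℝ) ≤ (x : ℝ) ^ θ →
      Ω p ⊆ range p ∧ k ≤ (Ω p).card ∧ ∀ n ∈ A, n % p ∉ Ω p) →
    η * (x / (Real.log x) ^ k) ≤ A.card → (Ex ε A ⌊(x : ℝ) ^ (1 / 2 - δ)⌋₊).card ≤ M := by
  classical
  obtain ⟨P₁, hP₁⟩ : ∃ P₁ : ℕ, P₁ = max P₀ k := ⟨_, rfl⟩
  have hP₁0 : P₀ ≤ P₁ := by rw [hP₁]; exact le_max_left _ _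
  have hP₁k : k ≤ P₁ := by rw [hP₁]; exact le_max_right _ _
  obtain ⟨ρ, hρ⟩ : ∃ ρ : ℝ, ρ = min θ δ := ⟨_, rfl⟩
  have hρ0 : 0 < ρ := by rw [hρ]; exact lt_min hθ hδ
  have hρθ : ρ ≤ θ := by rw [hρ]; exact min_le_left _ _
  have hρδ : ρ ≤ δ := by rw [hρ]; exact min_le_right _ _
  have hk0 : (0 : ℝ) < k := by exact_mod_cast (by omega : 0 < k)
  obtain ⟨c₁, hc₁⟩ : ∃ c₁ : ℝ, c₁ = (Nat.totient P₁.factorial : ℝ) / (2 * (P₁.factorial : ℕ)) := ⟨_, rfl⟩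
  have hc₁0 : 0 < c₁ := by
    rw [hc₁]
    have h1 : (0 : ℝ) < Nat.totient P₁.factorial := by
      exact_mod_cast Nat.totient_pos.2 P₁.factorial_pos
    have h2 : (0 : ℝ) < (P₁.factorial : ℕ) := by exact_mod_cast P₁.factorial_pos
    positivity
  obtain ⟨a, ha⟩ : ∃ a : ℝ, a = c₁ * (ρ / (2 * k)) := ⟨_, rfl⟩
  have ha0 : 0 < a := by rw [ha]; positivity
  obtain ⟨M₀, hM₀⟩ : ∃ M₀ : ℕ, M₀ = ⌈12 / (a ^ k * ε ^ 2 * η)⌉₊ + 1 := ⟨_, rfl⟩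
  have hM₀' : 12 / (a ^ k * ε ^ 2 * η) < M₀ := by
    rw [hM₀]
    push_cast
    have := Nat.le_ceil (12 / (a ^ k * ε ^ 2 * η))
    linarith
  obtain ⟨Y, hY⟩ : ∃ Y : ℕ, Y = 2 * M₀ + 2 + P₁ := ⟨_, rfl⟩
  obtain ⟨X, hX3, hX⟩ := num_D k hk ρ hρ0
  refine ⟨max X (M₀ + Y), fun x hx2 Ω A hA hΩ hdens => ?_⟩
  have hx1 : (1 : ℝ) ≤ x := by exact_mod_cast (by omega : 1 ≤ x)
  have hx0 : (0 : ℝ) < x := by linarith
  obtain ⟨Q, hQ⟩ : ∃ Q : ℕ, Q = ⌊(x : ℝ) ^ (1 / 2 - δ)⌋₊ := ⟨_, rfl⟩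
  rw [← hQ]
  have hQl : (Q : ℝ) ≤ (x : ℝ) ^ (1 / 2 - δ) := by rw [hQ]; exact Nat.floor_le (by positivity)
  rcases Nat.lt_or_ge x X with hxX | hxX
  · refine le_trans ?_ (le_max_left _ _)
    have h1 : (Ex ε A Q).card ≤ Q := by
      unfold Ex
      refine (card_filter_le _ _).trans ?_
      rw [Nat.card_Icc]
      omega
    have h2 : Q ≤ x := by
      have h3 : (Q : ℝ) ≤ x := hQl.trans (by
        calc (x : ℝ) ^ (1 / 2 - δ) ≤ (x : ℝ) ^ (1 : ℝ) :=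
              Real.rpow_le_rpow_of_exponent_le hx1 (by linarith)
          _ = x := Real.rpow_one _)
      exact_mod_cast h3
    omega
  refine le_trans ?_ (le_max_right _ _)
  obtain ⟨d1, d2, d3, d4⟩ := hX x hxX
  obtain ⟨s, hs⟩ : ∃ s : ℕ, s = ⌊(x : ℝ) ^ (ρ / k)⌋₊ := ⟨_, rfl⟩
  obtain ⟨R, hR⟩ : ∃ R : ℕ, R = ⌊(x : ℝ) ^ ρ⌋₊ := ⟨_, rfl⟩
  rw [← hs] at d2 d3 d4
  rw [← hR] at d4
  have hRl : (R : ℝ) ≤ (x : ℝ) ^ ρ := by rw [hR]; exact Nat.floor_le (by positivity)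
  have hL0 : 0 < Real.log x := by linarith
  have ht0 : 0 < (A.card : ℝ) := lt_of_lt_of_le (by positivity) hdens
  by_contra hcon
  push Not at hcon
  -- the large exceptional primes
  obtain ⟨B, hB⟩ : ∃ B : Finset ℕ, B = (Ex ε A Q).filter (fun q => Y < q) := ⟨_, rfl⟩
  have hBc : M₀ ≤ B.card := by
    have h1 : (Ex ε A Q).card = B.card + ((Ex ε A Q).filter (fun q => ¬ Y < q)).card := by
      rw [hB, card_filter_add_card_filter_not]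
    have h2 : ((Ex ε A Q).filter (fun q => ¬ Y < q)).card ≤ Y := by
      have h3 : (Ex ε A Q).filter (fun q => ¬ Y < q) ⊆ Icc 1 Y := by
        intro q hq
        rw [mem_filter] at hq
        have h4 := hq.1
        unfold Ex at h4
        rw [mem_filter, mem_Icc] at h4
        exact mem_Icc.2 ⟨h4.1.1, by omega⟩
      have h4 := card_le_card h3
      rwa [Nat.card_Icc, Nat.add_sub_cancel] at h4
    omega
  obtain ⟨S, hS, hSc⟩ := exists_subset_card_eq hBc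
  have hch : ∀ p : ℕ, ∃ Ω' : Finset ℕ, k ≤ (Ω p).card → Ω' ⊆ Ω p ∧ Ω'.card = k := by
    intro p
    by_cases h : k ≤ (Ω p).card
    · obtain ⟨Ω', h1, h2⟩ := exists_subset_card_eq h
      exact ⟨Ω', fun _ => ⟨h1, h2⟩⟩
    · exact ⟨∅, fun h' => absurd h' h⟩
  choose Ω' hΩ' using hch
  have hmain := few_Qk hM hG k P₁ x Q R s M₀ Y hk hP₁k A ε Ω' hA (by
    intro p hp hpP hpR
    have hpθ : (p : ℝ) ≤ (x : ℝ) ^ θ := by
      have h1 : (p : ℝ) ≤ R := by exact_mod_cast hpR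
      exact h1.trans (hRl.trans (Real.rpow_le_rpow_of_exponent_le hx1 hρθ))
    obtain ⟨g1, g2, g3⟩ := hΩ p hp (by omega) hpθ
    obtain ⟨f1, f2⟩ := hΩ' p g2
    exact ⟨f1.trans g1, f2, fun n hn hn' => g3 n hn (f1 hn')⟩) (by
    have h1 : (((Q * R) ^ 2 : ℕ) : ℝ) ≤ x := by
      push_cast
      have h2 : (Q : ℝ) * R ≤ (x : ℝ) ^ (1 / 2 : ℝ) := by
        calc (Q : ℝ) * R ≤ (x : ℝ) ^ (1 / 2 - δ) * (x : ℝ) ^ ρ :=
              mul_le_mul hQl hRl (Nat.cast_nonneg _) (by positivity)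
          _ = (x : ℝ) ^ (1 / 2 - δ + ρ) := (Real.rpow_add hx0 _ _).symm
          _ ≤ _ := Real.rpow_le_rpow_of_exponent_le hx1 (by linarith)
      calc ((Q : ℝ) * R) ^ 2 ≤ ((x : ℝ) ^ (1 / 2 : ℝ)) ^ 2 := pow_le_pow_left₀ (by positivity) h2 2
        _ = x := by rw [← Real.rpow_natCast, ← Real.rpow_mul hx0.le]; norm_num
    exact_mod_cast h1) d2 d4 S (by
    intro q hq
    have h1 := hS hq
    rw [hB, mem_filter] at h1
    have h2 := h1.1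
    unfold Ex at h2
    rw [mem_filter, mem_Icc] at h2
    exact ⟨h2.2.1, h2.1.2, h1.2⟩) hSc.le (by omega) (by omega) (by omega) (by
    intro q hq
    have h1 := hS hq
    rw [hB, mem_filter] at h1
    have h2 := h1.1
    unfold Ex at h2
    rw [mem_filter, mem_Icc] at h2
    obtain ⟨-, hqp, C, hC, hCb⟩ := h2
    refine le_trans ?_ (class_count q x hqp A hA C hC)
    rw [← sq_abs (((A.filter (fun n => n % q ∈ C)).card : ℝ) - (C.card : ℝ) / q * (A.card : ℝ))]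
    exact pow_le_pow_left₀ (by positivity) hCb.le 2)
  rw [hSc, ← hc₁] at hmain
  have h5 : (a * Real.log x) ^ k ≤ (c₁ * Real.log (s : ℕ)) ^ k := by
    apply pow_le_pow_left₀ (by positivity)
    rw [ha, mul_assoc]
    exact mul_le_mul_of_nonneg_left d3 hc₁0.le
  have h6 : (a * Real.log x) ^ k * (M₀ * (ε * (A.card : ℝ)) ^ 2) ≤ 12 * x * (A.card : ℝ) :=
    (mul_le_mul_of_nonneg_right h5 (by positivity)).trans hmain
  have h7 := alg_Dk k a (Real.log x) M₀ ε (A.card : ℝ) x η ha0 hL0 ht0 hx0 hη hε (Nat.cast_nonneg _)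
    hdens h6
  rw [div_lt_iff₀ (by positivity)] at hM₀'
  linarith

end Pool.Agent.H482.DS
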