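import Mathlib
import Pool.Agent.H482.DS.Fin

/-! Subsets of sifted sets are equidistributed modulo almost all primes, with an error
measured by the expected size of the sifted set; linear forms. -/

set_option autoImplicit false

namespace Pool.Agent.H482.DS

open Finset Filter

open Pool.Agent.H482.AP (AS class_count ind1)
open Pool.Agent.H482.AP.LSAx (AS_nonneg ALS)

/-- the large sieve for a set sifted by `k` classes -/
theorem upk (hM : S_MONK) (k P₀ N R : ℕ) (hkP : k ≤ P₀) (a : ℕ → ℂ) (Ω : ℕ → Finset ℕ)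
    (ha : ∀ p : ℕ, p.Prime → P₀ < p → p ≤ R → Ω p ⊆ range p ∧ (Ω p).card = k ∧
      ∀ n ∈ Icc 1 N, n % p ∈ Ω p → a n = 0) :
    (∑ m ∈ (Icc 1 R).filter (fun m => Squarefree m ∧ Nat.Coprime P₀.factorial m), gk k m) *
      ‖∑ n ∈ Icc 1 N, a n‖ ^ 2 ≤ 6 * (N + (R : ℝ) ^ 2) * ∑ n ∈ Icc 1 N, ‖a n‖ ^ 2 := by
  classical
  rw [sum_mul]
  have h1 : ∀ m ∈ (Icc 1 R).filter (fun m => Squarefree m ∧ Nat.Coprime P₀.factorial m),
      gk k m * ‖∑ n ∈ Icc 1 N, a n‖ ^ 2 ≤ AS N a m := by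
    intro m hm
    rw [mem_filter, mem_Icc] at hm
    obtain ⟨⟨h2, h3⟩, h4, h5⟩ := hm
    refine indk hM k N Ω m a h4 ?_
    intro p hp
    have hpp := Nat.prime_of_mem_primeFactors hp
    have hpd := Nat.dvd_of_mem_primeFactors hp
    have hPp : P₀ < p := by
      by_contra hcon
      push Not at hcon
      have h6 : p ∣ P₀.factorial := hpp.dvd_factorial.2 hcon
      have h7 := Nat.dvd_gcd h6 hpd
      rw [Nat.Coprime] at h5
      rw [h5] at h7
      exact hpp.one_lt.ne' (Nat.dvd_one.1 h7)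
    obtain ⟨g1, g2, g3⟩ := ha p hpp hPp ((Nat.le_of_dvd h2 hpd).trans h3)
    exact ⟨lt_of_le_of_lt hkP hPp, g1, g2, g3⟩
  calc ∑ m ∈ (Icc 1 R).filter (fun m => Squarefree m ∧ Nat.Coprime P₀.factorial m),
        gk k m * ‖∑ n ∈ Icc 1 N, a n‖ ^ 2
      ≤ ∑ m ∈ (Icc 1 R).filter (fun m => Squarefree m ∧ Nat.Coprime P₀.factorial m), AS N a m :=
        sum_le_sum h1
    _ ≤ ∑ m ∈ Icc 1 R, AS N a m :=
      sum_le_sum_of_subset_of_nonneg (filter_subset _ _) (fun m _ _ => AS_nonneg N a m)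
    _ ≤ _ := by
      have := ALS N R a
      exact this

/-- the upper bound for the number of elements of a sifted set -/
theorem upper (hM : S_MONK) (hG : S_GSUK) (k : ℕ) (hk : 1 ≤ k) (P₀ : ℕ) (θ : ℝ) (hθ : 0 < θ) :
    ∃ (C : ℝ) (X : ℕ), 0 < C ∧ 3 ≤ X ∧ ∀ x : ℕ, X ≤ x → ∀ (Ω : ℕ → Finset ℕ) (A : Finset ℕ),
      A ⊆ Icc 1 x → (∀ p : ℕ, p.Prime → P₀ < p → (p : ℝ) ≤ (x : ℝ) ^ θ →
        Ω p ⊆ range p ∧ k ≤ (Ω p).card ∧ ∀ n ∈ A, n % p ∉ Ω p) →
      (A.card : ℝ) ≤ C * (x / (Real.log x) ^ k) := by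
  classical
  obtain ⟨P₁, hP₁⟩ : ∃ P₁ : ℕ, P₁ = max P₀ k := ⟨_, rfl⟩
  have hP₁0 : P₀ ≤ P₁ := by rw [hP₁]; exact le_max_left _ _
  have hP₁k : k ≤ P₁ := by rw [hP₁]; exact le_max_right _ _
  obtain ⟨ρ, hρ⟩ : ∃ ρ : ℝ, ρ = min θ (1 / 2) := ⟨_, rfl⟩
  have hρ0 : 0 < ρ := by rw [hρ]; exact lt_min hθ (by norm_num)
  have hρθ : ρ ≤ θ := by rw [hρ]; exact min_le_left _ _
  have hρ2 : ρ ≤ 1 / 2 := by rw [hρ]; exact min_le_right _ _
  have hk0 : (0 : ℝ) < k := by exact_mod_cast (by omega : 0 < k)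
  obtain ⟨c₁, hc₁⟩ : ∃ c₁ : ℝ, c₁ = (Nat.totient P₁.factorial : ℝ) / (P₁.factorial : ℕ) := ⟨_, rfl⟩
  have hc₁0 : 0 < c₁ := by
    rw [hc₁]
    have h1 : (0 : ℝ) < Nat.totient P₁.factorial := by
      exact_mod_cast Nat.totient_pos.2 P₁.factorial_pos
    have h2 : (0 : ℝ) < (P₁.factorial : ℕ) := by exact_mod_cast P₁.factorial_pos
    positivity
  obtain ⟨a, ha⟩ : ∃ a : ℝ, a = c₁ * (ρ / (2 * k)) := ⟨_, rfl⟩
  have ha0 : 0 < a := by rw [ha]; positivity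
  obtain ⟨X, hX3, hX⟩ := num_D k hk ρ hρ0
  refine ⟨12 / a ^ k, X, by positivity, hX3, fun x hxX Ω A hA hΩ => ?_⟩
  have hx2 : 2 ≤ x := by omega
  have hx1 : (1 : ℝ) ≤ x := by exact_mod_cast (by omega : 1 ≤ x)
  have hx0 : (0 : ℝ) < x := by linarith
  obtain ⟨d1, d2, d3, d4⟩ := hX x hxX
  obtain ⟨s, hs⟩ : ∃ s : ℕ, s = ⌊(x : ℝ) ^ (ρ / k)⌋₊ := ⟨_, rfl⟩
  obtain ⟨R, hR⟩ : ∃ R : ℕ, R = ⌊(x : ℝ) ^ ρ⌋₊ := ⟨_, rfl⟩
  rw [← hs] at d2 d3 d4
  rw [← hR] at d4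
  have hRl : (R : ℝ) ≤ (x : ℝ) ^ ρ := by rw [hR]; exact Nat.floor_le (by positivity)
  have hL0 : 0 < Real.log x := by linarith
  rcases Nat.eq_zero_or_pos A.card with h0 | h0
  · rw [h0]
    push_cast
    positivity
  have ht0 : (0 : ℝ) < A.card := by exact_mod_cast h0
  have hch : ∀ p : ℕ, ∃ Ω' : Finset ℕ, k ≤ (Ω p).card → Ω' ⊆ Ω p ∧ Ω'.card = k := by
    intro p
    by_cases h : k ≤ (Ω p).card
    · obtain ⟨Ω', h1, h2⟩ := exists_subset_card_eq h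
      exact ⟨Ω', fun _ => ⟨h1, h2⟩⟩
    · exact ⟨∅, fun h' => absurd h' h⟩
  choose Ω' hΩ' using hch
  have hmain := upk hM k P₁ x R hP₁k (ind1 A) Ω' (by
    intro p hp hpP hpR
    have hpθ : (p : ℝ) ≤ (x : ℝ) ^ θ := by
      have h1 : (p : ℝ) ≤ R := by exact_mod_cast hpR
      exact h1.trans (hRl.trans (Real.rpow_le_rpow_of_exponent_le hx1 hρθ))
    obtain ⟨g1, g2, g3⟩ := hΩ p hp (by omega) hpθ
    obtain ⟨f1, f2⟩ := hΩ' p g2
    refine ⟨f1.trans g1, f2, fun n _ hn => ?_⟩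
    unfold ind1
    rw [if_neg]
    intro hn'
    exact g3 n hn' (f1 hn))
  have h2 := hG k P₁.factorial s R hk P₁.factorial_pos
    (fun p hp hpk => hp.dvd_factorial.2 (hpk.trans hP₁k)) d2 d4
  have hR2 : (R : ℝ) ^ 2 ≤ x := by
    calc (R : ℝ) ^ 2 ≤ ((x : ℝ) ^ (1 / 2 : ℝ)) ^ 2 := by
          apply pow_le_pow_left₀ (Nat.cast_nonneg _)
          exact hRl.trans (Real.rpow_le_rpow_of_exponent_le hx1 hρ2)
      _ = (x : ℝ) := by rw [← Real.rpow_natCast, ← Real.rpow_mul hx0.le]; norm_num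
  have h5 : ∑ n ∈ Icc 1 x, ‖ind1 A n‖ ^ 2 = A.card := by
    have : ∀ n ∈ Icc 1 x, ‖ind1 A n‖ ^ 2 = if n ∈ A then (1 : ℝ) else 0 := by
      intro n _
      unfold ind1
      split_ifs <;> simp
    rw [sum_congr rfl this, ← sum_filter, filter_mem_eq_inter, inter_eq_right.2 hA]
    simp
  have h6 : ∑ n ∈ Icc 1 x, ind1 A n = (A.card : ℂ) := by
    have : ∀ n ∈ Icc 1 x, ind1 A n = if n ∈ A then (1 : ℂ) else 0 := by
      intro n _
      unfold ind1
      split_ifs <;> simp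
    rw [sum_congr rfl this, ← sum_filter, filter_mem_eq_inter, inter_eq_right.2 hA]
    simp
  rw [h5, h6, Complex.norm_natCast] at hmain
  have h7 : (a * Real.log x) ^ k ≤ ∑ m ∈ (Icc 1 R).filter
      (fun m => Squarefree m ∧ Nat.Coprime P₁.factorial m), gk k m := by
    refine le_trans ?_ h2
    apply pow_le_pow_left₀ (by positivity)
    rw [← hc₁, ha, mul_assoc]
    exact mul_le_mul_of_nonneg_left d3 hc₁0.le
  have h8 : (a * Real.log x) ^ k * (A.card : ℝ) * A.card ≤ 12 * x * A.card := by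
    calc (a * Real.log x) ^ k * (A.card : ℝ) * A.card = (a * Real.log x) ^ k * (A.card : ℝ) ^ 2 := by
          ring
      _ ≤ _ := mul_le_mul_of_nonneg_right h7 (by positivity)
      _ ≤ _ := hmain
      _ ≤ 12 * x * A.card := by
          apply mul_le_mul_of_nonneg_right _ ht0.le
          linarith
  have h9 := le_of_mul_le_mul_right h8 ht0
  rw [mul_pow] at h9
  rw [div_mul_div_comm, le_div_iff₀ (by positivity)]
  linarith

open Classical in
/-- the primes modulo which the elements of `A` are not equidistributed up to `E` -/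
noncomputable def Ea (E : ℝ) (A : Finset ℕ) (Q : ℕ) : Finset ℕ :=
  (Icc 1 Q).filter (fun q => q.Prime ∧ ∃ C ⊆ range q,
    E < |((A.filter (fun n => n % q ∈ C)).card : ℝ) - (C.card : ℝ) / q * (A.card : ℝ)|)

theorem triv (A C : Finset ℕ) (q : ℕ) (hq : 1 ≤ q) (hC : C ⊆ range q) :
    |((A.filter (fun n => n % q ∈ C)).card : ℝ) - (C.card : ℝ) / q * (A.card : ℝ)| ≤ A.card := by
  have hq0 : (0 : ℝ) < q := by exact_mod_cast hq
  have h1 : (C.card : ℝ) ≤ q := by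
    have := card_le_card hC
    rw [card_range] at this
    exact_mod_cast this
  apply abs_sub_le_of_nonneg_of_le (Nat.cast_nonneg _)
  · exact_mod_cast card_filter_le _ _
  · positivity
  · have h2 : (C.card : ℝ) / q ≤ 1 := by rw [div_le_one hq0]; exact h1
    calc (C.card : ℝ) / q * (A.card : ℝ) ≤ 1 * A.card := by gcongr
      _ = _ := one_mul _

/-- the theorem with an error measured by the expected size -/
theorem dense_abs (hM : S_MONK) (hG : S_GSUK) (k : ℕ) (hk : 1 ≤ k) (P₀ : ℕ) (θ ε δ : ℝ)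
    (hθ : 0 < θ) (hε : 0 < ε) (hδ : 0 < δ) : ∃ M : ℕ, ∀ x : ℕ, 2 ≤ x → ∀ (Ω : ℕ → Finset ℕ)
    (A : Finset ℕ), A ⊆ Icc 1 x → (∀ p : ℕ, p.Prime → P₀ < p → (p : ℝ) ≤ (x : ℝ) ^ θ →
      Ω p ⊆ range p ∧ k ≤ (Ω p).card ∧ ∀ n ∈ A, n % p ∉ Ω p) →
    (Ea (ε * (x / (Real.log x) ^ k)) A ⌊(x : ℝ) ^ (1 / 2 - δ)⌋₊).card ≤ M := by
  classical
  obtain ⟨C, X, hC0, hX3, hup⟩ := upper hM hG k hk P₀ θ hθ
  obtain ⟨M, hMM⟩ := dense hM hG k hk P₀ θ ε (ε / C) δ hθ hε (by positivity) hδ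
  refine ⟨max M X, fun x hx2 Ω A hA hΩ => ?_⟩
  have hx1 : (1 : ℝ) ≤ x := by exact_mod_cast (by omega : 1 ≤ x)
  rcases Nat.lt_or_ge x X with hxX | hxX
  · refine le_trans ?_ (le_max_right _ _)
    have h1 : (Ea (ε * (x / (Real.log x) ^ k)) A ⌊(x : ℝ) ^ (1 / 2 - δ)⌋₊).card ≤
        ⌊(x : ℝ) ^ (1 / 2 - δ)⌋₊ := by
      unfold Ea
      refine (card_filter_le _ _).trans ?_
      rw [Nat.card_Icc]
      omega
    have h2 : ⌊(x : ℝ) ^ (1 / 2 - δ)⌋₊ ≤ x := by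
      apply Nat.floor_le_of_le
      calc (x : ℝ) ^ (1 / 2 - δ) ≤ (x : ℝ) ^ (1 : ℝ) :=
            Real.rpow_le_rpow_of_exponent_le hx1 (by linarith)
        _ = x := Real.rpow_one _
    omega
  refine le_trans ?_ (le_max_left _ _)
  have hu := hup x hxX Ω A hA hΩ
  rcases lt_or_ge (A.card : ℝ) (ε * (x / (Real.log x) ^ k)) with hs | hs
  · have : Ea (ε * (x / (Real.log x) ^ k)) A ⌊(x : ℝ) ^ (1 / 2 - δ)⌋₊ = ∅ := by
      rw [eq_empty_iff_forall_notMem]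
      intro q hq
      unfold Ea at hq
      rw [mem_filter, mem_Icc] at hq
      obtain ⟨⟨h1, -⟩, -, C', hC', h3⟩ := hq
      have h4 := triv A C' q h1 hC'
      linarith
    rw [this, card_empty]
    exact Nat.zero_le _
  · refine le_trans (card_le_card ?_) (hMM x hx2 Ω A hA hΩ hs)
    intro q hq
    unfold Ea at hq
    unfold Ex
    rw [mem_filter] at hq ⊢
    refine ⟨hq.1, hq.2.1, ?_⟩
    obtain ⟨C', hC', h3⟩ := hq.2.2
    refine ⟨C', hC', lt_of_le_of_lt ?_ h3⟩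
    calc ε / C * (A.card : ℝ) ≤ ε / C * (C * (x / (Real.log x) ^ k)) :=
          mul_le_mul_of_nonneg_left hu (by positivity)
      _ = ε * (x / (Real.log x) ^ k) := by field_simp

/-- the classes in which one of the forms vanishes modulo `p` -/
def cls (k : ℕ) (a b : Fin k → ℕ) (p : ℕ) : Finset ℕ :=
  (range p).filter (fun r => ∃ i, p ∣ a i * r + b i)

theorem cls_card (k : ℕ) (a b : Fin k → ℕ) (ha : ∀ i, 1 ≤ a i)
    (hab : ∀ i j, i ≠ j → a i * b j ≠ a j * b i) :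
    ∃ P₀ : ℕ, ∀ p : ℕ, p.Prime → P₀ < p → k ≤ (cls k a b p).card := by
  classical
  refine ⟨∑ i, a i + ∑ i, ∑ j, a i * b j, fun p hp hpP => ?_⟩
  have := Fact.mk hp
  have h1 : ∀ i, a i < p := by
    intro i
    have := single_le_sum (f := a) (fun j _ => Nat.zero_le _) (mem_univ i)
    omega
  have h2 : ∀ i j, a i * b j < p := by
    intro i j
    have g1 := single_le_sum (f := fun j => a i * b j) (fun j _ => Nat.zero_le _) (mem_univ j)
    have g2 := single_le_sum (f := fun i => ∑ j, a i * b j) (fun j _ => Nat.zero_le _) (mem_univ i)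
    omega
  have h3 : ∀ i, ∃ r, r < p ∧ p ∣ a i * r + b i := by
    intro i
    have ha0 : (a i : ZMod p) ≠ 0 := by
      intro h
      rw [ZMod.natCast_eq_zero_iff] at h
      have := Nat.le_of_dvd (ha i) h
      have := h1 i
      omega
    refine ⟨(-(b i : ZMod p) * (a i : ZMod p)⁻¹).val, ZMod.val_lt _, ?_⟩
    rw [← ZMod.natCast_eq_zero_iff]
    push_cast
    rw [ZMod.natCast_zmod_val]
    field_simp
    ring
  choose r hr1 hr2 using h3
  have hinj : Function.Injective r := by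
    intro i j hij
    by_contra hne
    have g1 : p ∣ a j * (a i * r i + b i) := dvd_mul_of_dvd_right (hr2 i) _
    have g2 : p ∣ a i * (a j * r i + b j) := by
      rw [hij]
      exact dvd_mul_of_dvd_right (hr2 j) _
    have g3 : (a j * b i) % p = (a i * b j) % p := by
      have e1 : a j * (a i * r i + b i) ≡ a i * (a j * r i + b j) [MOD p] := by
        rw [Nat.ModEq, Nat.mod_eq_zero_of_dvd g1, Nat.mod_eq_zero_of_dvd g2]
      have e2 : a j * a i * r i + a j * b i ≡ a j * a i * r i + a i * b j [MOD p] := by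
        have f1 : a j * (a i * r i + b i) = a j * a i * r i + a j * b i := by ring
        have f2 : a i * (a j * r i + b j) = a j * a i * r i + a i * b j := by ring
        rwa [f1, f2] at e1
      exact Nat.ModEq.add_left_cancel' _ e2
    rw [Nat.mod_eq_of_lt (h2 j i), Nat.mod_eq_of_lt (h2 i j)] at g3
    exact hab i j hne g3.symm
  calc k = (univ : Finset (Fin k)).card := by simp
    _ ≤ (cls k a b p).card := by
        refine card_le_card_of_injOn r ?_ (fun i _ j _ h => hinj h)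
        intro i _
        have : r i ∈ cls k a b p := by
          unfold cls
          rw [mem_filter, mem_range]
          exact ⟨hr1 i, i, hr2 i⟩
        exact_mod_cast this

theorem cls_mem (k : ℕ) (a b : Fin k → ℕ) (p n : ℕ) (h : n % p ∈ cls k a b p) :
    ∃ i, p ∣ a i * n + b i := by
  unfold cls at h
  rw [mem_filter] at h
  obtain ⟨-, i, hi⟩ := h
  refine ⟨i, ?_⟩
  have h1 : a i * n + b i ≡ a i * (n % p) + b i [MOD p] :=
    ((Nat.mod_modEq n p).symm.mul_left _).add_right _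
  exact (Nat.modEq_zero_iff_dvd.1 (h1.trans (Nat.modEq_zero_iff_dvd.2 hi)))

/-- almost prime values of linear forms -/
theorem forms_almost (hM : S_MONK) (hG : S_GSUK) (k : ℕ) (hk : 1 ≤ k) (a b : Fin k → ℕ)
    (ha : ∀ i, 1 ≤ a i) (hab : ∀ i j, i ≠ j → a i * b j ≠ a j * b i) (θ ε δ : ℝ)
    (hθ : 0 < θ) (hε : 0 < ε) (hδ : 0 < δ) : ∃ M : ℕ, ∀ x : ℕ, 2 ≤ x → ∀ (A : Finset ℕ),
    A ⊆ Icc 1 x → (∀ n ∈ A, ∀ i, ∀ p : ℕ, p.Prime → (p : ℝ) ≤ (x : ℝ) ^ θ → ¬ p ∣ a i * n + b i) →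
    (Ea (ε * (x / (Real.log x) ^ k)) A ⌊(x : ℝ) ^ (1 / 2 - δ)⌋₊).card ≤ M := by
  obtain ⟨P₀, hP₀⟩ := cls_card k a b ha hab
  obtain ⟨M, hMM⟩ := dense_abs hM hG k hk P₀ θ ε δ hθ hε hδ
  refine ⟨M, fun x hx2 A hA h => hMM x hx2 (cls k a b) A hA (fun p hp hpP hpx => ?_)⟩
  refine ⟨filter_subset _ _, hP₀ p hp hpP, fun n hn hn' => ?_⟩
  obtain ⟨i, hi⟩ := cls_mem k a b p n hn'
  exact h n hn i p hp hpx hi

theorem num_E (k : ℕ) (θ ε : ℝ) (hθ1 : θ < 1) (hε : 0 < ε) : ∃ X : ℕ, 3 ≤ X ∧ ∀ x : ℕ, X ≤ x →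
    (x : ℝ) ^ θ ≤ ε * (x / (Real.log x) ^ k) := by
  have h1 : ∀ᶠ y : ℝ in atTop, ‖Real.log y ^ (k : ℝ)‖ ≤ ε * ‖y ^ (1 - θ)‖ :=
    (isLittleO_log_rpow_rpow_atTop (k : ℝ) (by linarith : (0 : ℝ) < 1 - θ)).bound hε
  have h2 : ∀ᶠ x : ℕ in atTop, ‖Real.log (x : ℝ) ^ (k : ℝ)‖ ≤ ε * ‖(x : ℝ) ^ (1 - θ)‖ :=
    tendsto_natCast_atTop_atTop.eventually h1
  obtain ⟨X, hX⟩ := eventually_atTop.1 h2
  refine ⟨max X 3, le_max_right _ _, fun x hx => ?_⟩
  have h3 := hX x ((le_max_left _ _).trans hx)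
  have hx3 : 3 ≤ x := (le_max_right _ _).trans hx
  have hx0 : (0 : ℝ) < x := by exact_mod_cast (by omega : 0 < x)
  have hL : 0 < Real.log x := Real.log_pos (by exact_mod_cast (by omega : 1 < x))
  rw [Real.rpow_natCast, Real.norm_of_nonneg (by positivity), Real.norm_of_nonneg (by positivity)] at h3
  rw [← mul_div_assoc, le_div_iff₀ (by positivity)]
  calc (x : ℝ) ^ θ * (Real.log x) ^ k ≤ (x : ℝ) ^ θ * (ε * (x : ℝ) ^ (1 - θ)) := by
        gcongr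
    _ = ε * ((x : ℝ) ^ θ * (x : ℝ) ^ (1 - θ)) := by ring
    _ = ε * x := by
        rw [← Real.rpow_add hx0, add_sub_cancel, Real.rpow_one]

/-- values of linear forms without small prime factors, small arguments exempted -/
theorem forms_free (hM : S_MONK) (hG : S_GSUK) (k : ℕ) (hk : 1 ≤ k) (a b : Fin k → ℕ)
    (ha : ∀ i, 1 ≤ a i) (hab : ∀ i j, i ≠ j → a i * b j ≠ a j * b i) (θ ε δ : ℝ)
    (hθ : 0 < θ) (hθ1 : θ < 1) (hε : 0 < ε) (hδ : 0 < δ) : ∃ M : ℕ, ∀ x : ℕ, 2 ≤ x →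
    ∀ (A : Finset ℕ), A ⊆ Icc 1 x → (∀ n ∈ A, (x : ℝ) ^ θ < n → ∀ i, ∀ p : ℕ, p.Prime →
      (p : ℝ) ≤ (x : ℝ) ^ θ → ¬ p ∣ a i * n + b i) →
    (Ea (ε * (x / (Real.log x) ^ k)) A ⌊(x : ℝ) ^ (1 / 2 - δ)⌋₊).card ≤ M := by
  classical
  obtain ⟨M, hMM⟩ := forms_almost hM hG k hk a b ha hab θ (ε / 2) δ hθ
    (by positivity) hδ
  obtain ⟨X, hX3, hX⟩ := num_E k θ (ε / 2) hθ1 (by positivity)
  refine ⟨max M X, fun x hx2 A hA h => ?_⟩
  have hx1 : (1 : ℝ) ≤ x := by exact_mod_cast (by omega : 1 ≤ x)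
  rcases Nat.lt_or_ge x X with hxX | hxX
  · refine le_trans ?_ (le_max_right _ _)
    have h1 : (Ea (ε * (x / (Real.log x) ^ k)) A ⌊(x : ℝ) ^ (1 / 2 - δ)⌋₊).card ≤
        ⌊(x : ℝ) ^ (1 / 2 - δ)⌋₊ := by
      unfold Ea
      refine (card_filter_le _ _).trans ?_
      rw [Nat.card_Icc]
      omega
    have h2 : ⌊(x : ℝ) ^ (1 / 2 - δ)⌋₊ ≤ x := by
      apply Nat.floor_le_of_le
      calc (x : ℝ) ^ (1 / 2 - δ) ≤ (x : ℝ) ^ (1 : ℝ) :=
            Real.rpow_le_rpow_of_exponent_le hx1 (by linarith)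
        _ = x := Real.rpow_one _
    omega
  refine le_trans ?_ (le_max_left _ _)
  have hsm := hX x hxX
  obtain ⟨A', hA'⟩ : ∃ A' : Finset ℕ, A' = A.filter (fun n : ℕ => (x : ℝ) ^ θ < (n : ℝ)) := ⟨_, rfl⟩
  have hA'A : A' ⊆ A := by rw [hA']; exact filter_subset _ _
  have hc := hMM x hx2 A' (hA'A.trans hA) (by
    intro n hn i p hp hpx
    rw [hA', mem_filter] at hn
    exact h n hn.1 hn.2 i p hp hpx)
  refine le_trans (card_le_card ?_) hc
  intro q hq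
  unfold Ea at hq ⊢
  rw [mem_filter, mem_Icc] at hq ⊢
  refine ⟨hq.1, hq.2.1, ?_⟩
  obtain ⟨C, hC, h3⟩ := hq.2.2
  refine ⟨C, hC, ?_⟩
  -- the small elements
  have hB : ((A \ A').card : ℝ) ≤ (x : ℝ) ^ θ := by
    have h4 : A \ A' ⊆ Icc 1 ⌊(x : ℝ) ^ θ⌋₊ := by
      intro n hn
      rw [Finset.mem_sdiff, hA', mem_filter] at hn
      rw [mem_Icc]
      refine ⟨(mem_Icc.1 (hA hn.1)).1, Nat.le_floor ?_⟩
      by_contra hcon
      push Not at hcon
      exact hn.2 ⟨hn.1, hcon⟩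
    have h5 := card_le_card h4
    rw [Nat.card_Icc, Nat.add_sub_cancel] at h5
    have h6 : ((A \ A').card : ℝ) ≤ (⌊(x : ℝ) ^ θ⌋₊ : ℕ) := by exact_mod_cast h5
    exact h6.trans (Nat.floor_le (by positivity))
  have hsplit : A = A' ∪ (A \ A') := (union_sdiff_of_subset hA'A).symm
  have hdis : Disjoint A' (A \ A') := disjoint_sdiff
  have e1 : (A.card : ℝ) = A'.card + (A \ A').card := by
    have := card_union_of_disjoint hdis
    rw [← hsplit] at this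
    exact_mod_cast this
  have e2 : ((A.filter (fun n => n % q ∈ C)).card : ℝ) =
      (A'.filter (fun n => n % q ∈ C)).card + ((A \ A').filter (fun n => n % q ∈ C)).card := by
    have g1 : A.filter (fun n => n % q ∈ C) =
        A'.filter (fun n => n % q ∈ C) ∪ (A \ A').filter (fun n => n % q ∈ C) := by
      rw [← filter_union, ← hsplit]
    have g2 : Disjoint (A'.filter (fun n => n % q ∈ C)) ((A \ A').filter (fun n => n % q ∈ C)) :=
      disjoint_filter_filter hdis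
    have := card_union_of_disjoint g2
    rw [← g1] at this
    exact_mod_cast this
  have e3 := triv (A \ A') C q hq.1.1 hC
  rw [e1, e2] at h3
  have e4 : (((A'.filter (fun n => n % q ∈ C)).card : ℝ) +
      ((A \ A').filter (fun n => n % q ∈ C)).card) - (C.card : ℝ) / q * ((A'.card : ℝ) + (A \ A').card)
      = (((A'.filter (fun n => n % q ∈ C)).card : ℝ) - (C.card : ℝ) / q * (A'.card : ℝ)) +
        ((((A \ A').filter (fun n => n % q ∈ C)).card : ℝ) - (C.card : ℝ) / q * ((A \ A').card : ℝ)) := by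
    ring
  rw [e4] at h3
  have e5 := abs_add_le (((A'.filter (fun n => n % q ∈ C)).card : ℝ) - (C.card : ℝ) / q * (A'.card : ℝ))
    ((((A \ A').filter (fun n => n % q ∈ C)).card : ℝ) - (C.card : ℝ) / q * ((A \ A').card : ℝ))
  linarith

end Pool.Agent.H482.DS
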