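import Pool.Agent.H482.DS.Stm
import Pool.Agent.H482.AP.Gsu

set_option autoImplicit false

/-!
# Task GSUK of project DS (helper740): lower bound for the sum of the weights of the sieve with `k` classes
-/

namespace Pool.Agent.H482.DS

open Finset

namespace GSUK

open Pool.Agent.H482.AP.GSU (f f_nonneg tot_prod pf_lcm sqf_lcm)

/-- `(p / (p - 1)) ^ j - 1` -/
noncomputable def G (j p : ℕ) : ℝ := (1 + f p) ^ j - 1

theorem G_nonneg (j : ℕ) {p : ℕ} (hp : p.Prime) : 0 ≤ G j p := by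
  unfold G
  have h := f_nonneg hp
  have h1 : (1 : ℝ) ≤ (1 + f p) ^ j := one_le_pow₀ (by linarith)
  linarith

theorem G_succ (j p : ℕ) : f p * (1 + G j p) + G j p = G (j + 1) p := by
  unfold G
  rw [pow_succ]
  ring

/-- the double sum over subsets -/
theorem dbl (g : ℕ → ℝ) (P : Finset ℕ) : ∏ p ∈ P, (f p * (1 + g p) + g p) =
    ∑ x ∈ P.powerset.sigma (fun A => A.powerset),
      (∏ p ∈ x.1, f p) * (∏ p ∈ x.2, g p) * ∏ p ∈ P \ x.1, g p := by
  rw [prod_add, sum_sigma]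
  apply sum_congr rfl
  intro A _
  rw [prod_mul_distrib, prod_one_add, mul_sum, sum_mul]

theorem fibre (g : ℕ → ℝ) (hg : ∀ p : ℕ, p.Prime → 0 ≤ g p) (K L : Finset ℕ)
    (hK : ∀ k ∈ K, Squarefree k) (hL : ∀ k ∈ L, Squarefree k) (m : ℕ) :
    ∑ x ∈ (K ×ˢ L).filter (fun x => Nat.lcm x.1 x.2 = m),
      (∏ p ∈ x.1.primeFactors, f p) * ∏ p ∈ x.2.primeFactors, g p ≤
    ∏ p ∈ m.primeFactors, (f p * (1 + g p) + g p) := by
  classical
  rw [dbl]
  have hl : ∀ x ∈ (K ×ˢ L).filter (fun x => Nat.lcm x.1 x.2 = m),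
      Squarefree x.1 ∧ Squarefree x.2 ∧ m.primeFactors = x.1.primeFactors ∪ x.2.primeFactors := by
    intro x hx
    rw [mem_filter, mem_product] at hx
    refine ⟨hK _ hx.1.1, hL _ hx.1.2, ?_⟩
    rw [← hx.2]
    exact pf_lcm (hK _ hx.1.1).ne_zero (hL _ hx.1.2).ne_zero
  let e : ℕ × ℕ → (_ : Finset ℕ) × Finset ℕ :=
    fun x => ⟨x.1.primeFactors, x.1.primeFactors ∩ x.2.primeFactors⟩
  have hval : ∀ x ∈ (K ×ˢ L).filter (fun x => Nat.lcm x.1 x.2 = m),
      x.2.primeFactors = (m.primeFactors \ x.1.primeFactors) ∪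
        (x.1.primeFactors ∩ x.2.primeFactors) := by
    intro x hx
    rw [(hl x hx).2.2]
    ext p
    simp only [mem_union, mem_sdiff, mem_inter]
    tauto
  have hinj : Set.InjOn e ((K ×ˢ L).filter (fun x => Nat.lcm x.1 x.2 = m) : Set (ℕ × ℕ)) := by
    intro x hx y hy hxy
    have hx' := mem_coe.1 hx
    have hy' := mem_coe.1 hy
    simp only [e, Sigma.mk.injEq] at hxy
    obtain ⟨h1, h2⟩ := hxy
    have h2' := eq_of_heq h2
    have h3 : x.2.primeFactors = y.2.primeFactors := by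
      rw [hval x hx', hval y hy', h2', h1]
    apply Prod.ext
    · rw [← Nat.prod_primeFactors_of_squarefree (hl x hx').1, h1,
        Nat.prod_primeFactors_of_squarefree (hl y hy').1]
    · rw [← Nat.prod_primeFactors_of_squarefree (hl x hx').2.1, h3,
        Nat.prod_primeFactors_of_squarefree (hl y hy').2.1]
  have h1 : ∑ x ∈ (K ×ˢ L).filter (fun x => Nat.lcm x.1 x.2 = m),
      (∏ p ∈ x.1.primeFactors, f p) * ∏ p ∈ x.2.primeFactors, g p =
      ∑ y ∈ ((K ×ˢ L).filter (fun x => Nat.lcm x.1 x.2 = m)).image e,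
        (∏ p ∈ y.1, f p) * (∏ p ∈ y.2, g p) * ∏ p ∈ m.primeFactors \ y.1, g p := by
    rw [sum_image hinj]
    apply sum_congr rfl
    intro x hx
    simp only [e]
    rw [mul_assoc]
    congr 1
    nth_rewrite 1 [hval x hx]
    rw [prod_union, mul_comm]
    rw [disjoint_left]
    intro p hp hp'
    rw [mem_sdiff] at hp
    rw [mem_inter] at hp'
    exact hp.2 hp'.1
  rw [h1]
  apply sum_le_sum_of_subset_of_nonneg
  · intro y hy
    rw [mem_image] at hy
    obtain ⟨x, hx, rfl⟩ := hy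
    simp only [e, mem_sigma, mem_powerset]
    refine ⟨?_, inter_subset_left⟩
    rw [(hl x hx).2.2]
    exact subset_union_left
  · intro y hy _
    rw [mem_sigma, mem_powerset, mem_powerset] at hy
    refine mul_nonneg (mul_nonneg ?_ ?_) ?_
    · exact prod_nonneg fun p hp => f_nonneg (Nat.prime_of_mem_primeFactors (hy.1 hp))
    · exact prod_nonneg fun p hp => hg p (Nat.prime_of_mem_primeFactors (hy.1 (hy.2 hp)))
    · exact prod_nonneg fun p hp =>
        hg p (Nat.prime_of_mem_primeFactors ((mem_sdiff.1 hp).1))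

open Classical in
/-- the squarefree numbers up to `R` coprime to `q` -/
noncomputable def Q (q R : ℕ) : Finset ℕ :=
  (Icc 1 R).filter (fun m => Squarefree m ∧ Nat.Coprime q m)

theorem mem_Q {q R m : ℕ} : m ∈ Q q R ↔ (1 ≤ m ∧ m ≤ R) ∧ Squarefree m ∧ Nat.Coprime q m := by
  unfold Q
  rw [mem_filter, mem_Icc]

/-- one step of the induction -/
theorem step (q s T j : ℕ) :
    (∑ d ∈ Q q s, ∏ p ∈ d.primeFactors, f p) * ∑ m ∈ Q q T, ∏ p ∈ m.primeFactors, G j p ≤
      ∑ m ∈ Q q (s * T), ∏ p ∈ m.primeFactors, G (j + 1) p := by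
  classical
  rw [sum_mul_sum, ← sum_product']
  have hmaps : ∀ x ∈ Q q s ×ˢ Q q T, Nat.lcm x.1 x.2 ∈ Q q (s * T) := by
    intro x hx
    rw [mem_product, mem_Q, mem_Q] at hx
    obtain ⟨⟨⟨a1, a2⟩, a3, a4⟩, ⟨b1, b2⟩, b3, b4⟩ := hx
    rw [mem_Q]
    refine ⟨⟨Nat.lcm_pos (by omega) (by omega), ?_⟩, sqf_lcm a3 b3, ?_⟩
    · have h2 : Nat.lcm x.1 x.2 ≤ x.1 * x.2 :=
        Nat.le_of_dvd (Nat.mul_pos (by omega) (by omega)) (Nat.lcm_dvd_mul _ _)
      exact h2.trans (Nat.mul_le_mul a2 b2)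
    · exact Nat.Coprime.coprime_dvd_right (Nat.lcm_dvd_mul _ _) (Nat.Coprime.mul_right a4 b4)
  rw [← sum_fiberwise_of_maps_to hmaps]
  apply sum_le_sum
  intro m _
  refine (fibre (G j) (fun p hp => G_nonneg j hp) (Q q s) (Q q T)
    (fun k hk => (mem_Q.1 hk).2.1) (fun k hk => (mem_Q.1 hk).2.1) m).trans (le_of_eq ?_)
  exact prod_congr rfl fun p _ => G_succ j p

theorem powers (q s : ℕ) (j : ℕ) :
    (∑ d ∈ Q q s, ∏ p ∈ d.primeFactors, f p) ^ j ≤
      ∑ m ∈ Q q (s ^ j), ∏ p ∈ m.primeFactors, G j p := by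
  have hF : 0 ≤ ∑ d ∈ Q q s, ∏ p ∈ d.primeFactors, f p :=
    sum_nonneg fun d _ => prod_nonneg fun p hp => f_nonneg (Nat.prime_of_mem_primeFactors hp)
  induction j with
  | zero =>
    rw [pow_zero, pow_zero]
    have h1 : (1 : ℕ) ∈ Q q 1 := mem_Q.2 ⟨⟨le_rfl, le_rfl⟩, squarefree_one, Nat.coprime_one_right q⟩
    have h2 := single_le_sum (s := Q q 1) (f := fun m => ∏ p ∈ m.primeFactors, G 0 p)
      (fun m _ => prod_nonneg fun p hp => G_nonneg 0 (Nat.prime_of_mem_primeFactors hp)) h1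
    simpa using h2
  | succ j ih =>
    have h1 := step q s (s ^ j) j
    have e : s * s ^ j = s ^ (j + 1) := by ring
    rw [e] at h1
    refine le_trans ?_ h1
    rw [pow_succ, mul_comm]
    exact mul_le_mul_of_nonneg_left ih hF

theorem G_le {k p : ℕ} (hkp : k < p) : G k p ≤ (k : ℝ) / ((p : ℝ) - k) := by
  rcases Nat.eq_zero_or_pos k with rfl | hk
  · unfold G
    simp
  have hp1 : (1 : ℝ) < p := by exact_mod_cast (by omega : 1 < p)
  have hp0 : (0 : ℝ) < p := by linarith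
  have hkp' : (k : ℝ) < p := by exact_mod_cast hkp
  have h1 : 0 < (p : ℝ) - 1 := by linarith
  have h2 : 0 < (p : ℝ) - k := by linarith
  have hb := one_add_mul_le_pow (a := -(1 / (p : ℝ))) (by
    have : 1 / (p : ℝ) ≤ 1 := by rw [div_le_one hp0]; exact hp1.le
    linarith) k
  have e1 : 1 + (k : ℝ) * -(1 / (p : ℝ)) = ((p : ℝ) - k) / p := by
    field_simp
    ring
  have e2 : 1 + -(1 / (p : ℝ)) = ((p : ℝ) - 1) / p := by
    field_simp
    ring
  rw [e1, e2] at hb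
  have e3 : (1 + f p) = (((p : ℝ) - 1) / p)⁻¹ := by
    unfold f
    rw [inv_div]
    field_simp
    ring
  have e4 : (1 + f p) ^ k ≤ (((p : ℝ) - k) / p)⁻¹ := by
    rw [e3, inv_pow]
    exact inv_anti₀ (by positivity) hb
  have e5 : (((p : ℝ) - k) / p)⁻¹ = 1 + (k : ℝ) / ((p : ℝ) - k) := by
    rw [inv_div]
    field_simp
    ring
  unfold G
  rw [e5] at e4
  linarith

end GSUK

open GSUK in
/-- **GSUK.** -/
theorem gsuk : S_GSUK := by
  classical
  intro k q s R hk hq hpq hs hR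
  have hq0 : (0 : ℝ) < (q : ℝ) := by exact_mod_cast (by omega : 0 < q)
  have hphi : (0 : ℝ) < ((Nat.totient q : ℕ) : ℝ) := by
    exact_mod_cast Nat.totient_pos.2 (by omega)
  have h1 : (Nat.totient q : ℝ) / (q : ℝ) * Real.log s ≤
      ∑ d ∈ Q q s, ∏ p ∈ d.primeFactors, Pool.Agent.H482.AP.GSU.f p := by
    have h2 := Pool.Agent.H482.WT.tot q s hq hs
    have h3 : ∑ d ∈ (Icc 1 s).filter (fun d => Squarefree d ∧ Nat.Coprime q d),
        (q : ℝ) / (Nat.totient (q * d) : ℝ) =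
        (q : ℝ) / (Nat.totient q : ℝ) *
          ∑ d ∈ Q q s, ∏ p ∈ d.primeFactors, Pool.Agent.H482.AP.GSU.f p := by
      rw [mul_sum]
      unfold Q
      apply sum_congr rfl
      intro d hd
      rw [mem_filter] at hd
      rw [Nat.totient_mul hd.2.2, ← Pool.Agent.H482.AP.GSU.tot_prod d hd.2.1,
        Nat.cast_mul (Nat.totient q) (Nat.totient d), div_mul_div_comm, mul_one]
    rw [h3] at h2
    calc (Nat.totient q : ℝ) / (q : ℝ) * Real.log s ≤
        (Nat.totient q : ℝ) / (q : ℝ) * ((q : ℝ) / (Nat.totient q : ℝ) *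
          ∑ d ∈ Q q s, ∏ p ∈ d.primeFactors, Pool.Agent.H482.AP.GSU.f p) :=
          mul_le_mul_of_nonneg_left h2 (by positivity)
      _ = _ := by
          field_simp
  have h0 : 0 ≤ (Nat.totient q : ℝ) / (q : ℝ) * Real.log s :=
    mul_nonneg (by positivity) (Real.log_nonneg (by exact_mod_cast hs))
  refine (pow_le_pow_left₀ h0 h1 k).trans ((powers q s k).trans ?_)
  have h4 : ∑ m ∈ Q q (s ^ k), ∏ p ∈ m.primeFactors, G k p ≤
      ∑ m ∈ Q q R, ∏ p ∈ m.primeFactors, G k p := by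
    apply sum_le_sum_of_subset_of_nonneg
    · intro m hm
      rw [mem_Q] at hm ⊢
      exact ⟨⟨hm.1.1, hm.1.2.trans hR⟩, hm.2⟩
    · intro m _ _
      exact prod_nonneg fun p hp => G_nonneg k (Nat.prime_of_mem_primeFactors hp)
  refine h4.trans ?_
  unfold Q gk
  apply sum_le_sum
  intro m hm
  rw [mem_filter] at hm
  apply prod_le_prod
  · intro p hp
    exact G_nonneg k (Nat.prime_of_mem_primeFactors hp)
  · intro p hp
    have hpp := Nat.prime_of_mem_primeFactors hp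
    apply G_le
    by_contra hlt
    have h5 : p ∣ q := hpq p hpp (by omega)
    have h6 : p ∣ Nat.gcd q m := Nat.dvd_gcd h5 (Nat.dvd_of_mem_primeFactors hp)
    rw [hm.2.2] at h6
    exact hpp.one_lt.ne' (Nat.dvd_one.1 h6)

end Pool.Agent.H482.DS
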