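import Pool.Agent.H482.DS.Stm
import Pool.Graph.R_seed8.Helper112.MultLS

/-! Project DS (helper482): task MONK (helper102, adapted from the proofs of MON and MONG by helper997). -/

set_option autoImplicit false

namespace Pool.Agent.H482.DS

open Finset

open Pool.Agent.Helper112 (ee)
open Pool.Agent.H482.AP (AS red)

lemma monk_std (p : ℕ) [NeZero p] (a n : ℕ) :
    (ZMod.stdAddChar ((a : ZMod p) * (n : ZMod p)) : ℂ) = ee (n * a / p) := by
  have h := ZMod.stdAddChar_coe (N := p) ((a * n : ℕ) : ℤ)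
  push_cast at h
  rw [h]
  unfold ee
  congr 1
  push_cast
  ring

lemma monk_range (p : ℕ) [NeZero p] (G : ZMod p → ℝ) :
    ∑ n : ZMod p, G n = ∑ a ∈ range p, G (a : ZMod p) := by
  symm
  refine Finset.sum_nbij' (fun a => (a : ZMod p)) ZMod.val (fun _ _ => mem_univ _)
    (fun a _ => mem_range.2 (ZMod.val_lt a)) (fun a ha => ?_) (fun a _ => ?_) (fun _ _ => rfl)
  · exact ZMod.val_natCast_of_lt (mem_range.1 ha)
  · exact ZMod.natCast_zmod_val a

/-- task MONK -/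
theorem monk : S_MONK := by
  intro k p N Ω b hp hkp hΩ hΩk hb
  have : NeZero p := ⟨hp.ne_zero⟩
  have : Fact p.Prime := ⟨hp⟩
  classical
  obtain ⟨Φ, hΦ⟩ : ∃ Φ : ZMod p → ℂ,
      ∀ c, Φ c = ∑ n ∈ (Icc 1 N).filter (fun n : ℕ => (n : ZMod p) = c), b n := ⟨_, fun _ => rfl⟩
  have h1 : ∀ a : ℕ, ∑ c : ZMod p, Φ c * ZMod.stdAddChar ((a : ZMod p) * c) =
      ∑ n ∈ Icc 1 N, b n * ee (n * a / p) := by
    intro a
    rw [← Finset.sum_fiberwise (Icc 1 N) (fun n : ℕ => (n : ZMod p))]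
    refine Finset.sum_congr rfl fun c _ => ?_
    rw [hΦ, Finset.sum_mul]
    refine Finset.sum_congr rfl fun n hn => ?_
    rw [← (Finset.mem_filter.1 hn).2, monk_std]
  have h2 := Pool.Agent.Helper112.MLS.parseval p Φ
  rw [monk_range] at h2
  simp only [h1] at h2
  have h3 : range p = insert 0 (red p) := by
    ext a
    unfold red
    rw [mem_insert, mem_filter, mem_range]
    constructor
    · intro ha
      rcases Nat.eq_zero_or_pos a with h | h
      · exact Or.inl h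
      · exact Or.inr ⟨ha, ((Nat.Prime.coprime_iff_not_dvd hp).2 fun hd => absurd (Nat.le_of_dvd h hd) (not_le.2 ha)).symm⟩
    · rintro (rfl | h)
      · exact hp.pos
      · exact h.1
  have h4 : (0 : ℕ) ∉ red p := by
    unfold red
    rw [mem_filter, Nat.coprime_zero_left]
    intro h
    exact hp.one_lt.ne' h.2
  rw [h3, sum_insert h4] at h2
  have h5 : ∑ n ∈ Icc 1 N, b n * ee (n * ((0 : ℕ) : ℝ) / p) = ∑ n ∈ Icc 1 N, b n := by
    refine Finset.sum_congr rfl fun n _ => ?_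
    rw [Nat.cast_zero, mul_zero, zero_div, Pool.Agent.Helper112.ls_ee_zero, mul_one]
  rw [h5] at h2
  have h6 : ∑ c : ZMod p, Φ c = ∑ n ∈ Icc 1 N, b n := by
    rw [← Finset.sum_fiberwise (Icc 1 N) (fun n : ℕ => (n : ZMod p))]
    exact Finset.sum_congr rfl fun c _ => hΦ c
  -- the empty classes
  obtain ⟨Ω', hΩ'⟩ : ∃ Ω' : Finset (ZMod p), Ω' = Ω.image (fun a : ℕ => (a : ZMod p)) := ⟨_, rfl⟩
  have hcard : Ω'.card = k := by
    rw [hΩ', Finset.card_image_of_injOn, hΩk]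
    intro a ha a' ha' hh
    have g1 := mem_range.1 (hΩ ha)
    have g2 := mem_range.1 (hΩ ha')
    simp only at hh
    rw [ZMod.natCast_eq_natCast_iff, Nat.ModEq, Nat.mod_eq_of_lt g1, Nat.mod_eq_of_lt g2] at hh
    exact hh
  have h7 : ∀ c ∈ Ω', Φ c = 0 := by
    intro c hc
    rw [hΩ', mem_image] at hc
    obtain ⟨a, ha, rfl⟩ := hc
    rw [hΦ]
    refine Finset.sum_eq_zero fun n hn => ?_
    have h9 := (mem_filter.1 hn).2
    rw [ZMod.natCast_eq_natCast_iff, Nat.ModEq, Nat.mod_eq_of_lt (mem_range.1 (hΩ ha))] at h9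
    refine hb n (mem_filter.1 hn).1 ?_
    rw [h9]
    exact ha
  have h9 : ‖∑ n ∈ Icc 1 N, b n‖ ^ 2 ≤ ((p : ℝ) - k) * ∑ c : ZMod p, ‖Φ c‖ ^ 2 := by
    have h10 : ∑ c : ZMod p, Φ c = ∑ c ∈ (univ \ Ω' : Finset (ZMod p)), Φ c := by
      rw [← Finset.sum_sdiff (Finset.subset_univ Ω'), Finset.sum_eq_zero h7, add_zero]
    have h11 : ((univ \ Ω' : Finset (ZMod p)).card : ℝ) = (p : ℝ) - k := by
      rw [Finset.card_sdiff_of_subset (Finset.subset_univ _), Finset.card_univ, ZMod.card,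
        hcard, Nat.cast_sub hkp.le]
    rw [← h6, h10, ← h11]
    calc ‖∑ c ∈ (univ \ Ω' : Finset (ZMod p)), Φ c‖ ^ 2
        ≤ (∑ c ∈ (univ \ Ω' : Finset (ZMod p)), ‖Φ c‖) ^ 2 :=
          pow_le_pow_left₀ (norm_nonneg _) (norm_sum_le _ _) 2
      _ ≤ ((univ \ Ω' : Finset (ZMod p)).card : ℝ) *
          ∑ c ∈ (univ \ Ω' : Finset (ZMod p)), ‖Φ c‖ ^ 2 := sq_sum_le_card_mul_sum_sq
      _ ≤ ((univ \ Ω' : Finset (ZMod p)).card : ℝ) * ∑ c : ZMod p, ‖Φ c‖ ^ 2 := by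
          refine mul_le_mul_of_nonneg_left ?_ (Nat.cast_nonneg _)
          exact Finset.sum_le_sum_of_subset_of_nonneg (Finset.subset_univ _)
            fun _ _ _ => by positivity
  have hpk : (0 : ℝ) < (p : ℝ) - k := by
    have : (k : ℝ) < p := by exact_mod_cast hkp
    linarith
  have h12 : AS N b p = (p : ℝ) * ∑ c : ZMod p, ‖Φ c‖ ^ 2 - ‖∑ n ∈ Icc 1 N, b n‖ ^ 2 := by
    rw [← h2, add_sub_cancel_left]
    rfl
  rw [h12, div_mul_eq_mul_div, div_le_iff₀ hpk]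
  have hp0 : (0 : ℝ) ≤ p := Nat.cast_nonneg _
  nlinarith [mul_le_mul_of_nonneg_left h9 hp0]

end Pool.Agent.H482.DS
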